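import Pool.Agent.Helper84.FX.StT

set_option autoImplicit false

/-!
# Project FX, module HTP: a map homotopic to a weak equivalence is a weak equivalence
-/

namespace Pool.Agent.Helper28.FX

open Set Pool.Agent.Helper84.FX

theorem hHTP : StWEP → StCCT → StHTP := by
  intro hWEP hCCT E F _ _ X Y f g hf hg hfg
  obtain ⟨h, hh, h0, h1⟩ := hfg
  refine ⟨hg, ?_⟩
  intro n a b ha hb hab
  obtain ⟨c, P, hc, hca, hP, hP0, hP1, hPK⟩ :=
    hWEP E F X Y f hf n a b (fun q => h (1 - q.1, a q.2)) ha hb
      (by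
        constructor
        · refine hh.1.comp (t := II ×ˢ X) ?_ ?_
          · refine ContinuousOn.prodMk (by fun_prop) ?_
            exact ha.1.comp continuousOn_snd (fun q hq => hq.2)
          · intro q hq
            exact ⟨⟨by linarith [hq.1.2], by linarith [hq.1.1]⟩, ha.2 hq.2⟩
        · intro q hq
          exact hh.2 ⟨⟨by linarith [hq.1.2], by linarith [hq.1.1]⟩, ha.2 hq.2⟩)
      (by
        intro u hu
        simp only [sub_zero]
        rw [h1 _ (ha.2 hu), hab u hu])
      (by
        intro u hu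
        simp only [sub_self]
        rw [h0 _ (ha.2 hu)])
  have hBC : Bd n ⊆ Cb n := fun u hu => hu.1
  have hR : Mp (II ×ˢ Cb n) Y (fun q => h (q.1, c q.2)) := by
    constructor
    · refine hh.1.comp (t := II ×ˢ X) ?_ ?_
      · refine ContinuousOn.prodMk (by fun_prop) ?_
        exact hc.1.comp continuousOn_snd (fun q hq => hq.2)
      · intro q hq
        exact ⟨hq.1, hc.2 hq.2⟩
    · intro q hq
      exact hh.2 ⟨hq.1, hc.2 hq.2⟩
  obtain ⟨H, hH, hH0, hH1, hHb⟩ :=
    (hCCT F Y n P (fun q => h (q.1, c q.2)) (fun q => h (1 - q.1, a q.2)) hP hR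
      (by
        intro u hu
        change P (1, u) = h (0, c u)
        rw [hP1 u hu, h0 _ (hc.2 hu)])
      hPK).2
      (by
        intro s hs u hu
        change h (s, c u) = h (1 - (1 - s), a u)
        rw [hca u hu, sub_sub_cancel])
  refine ⟨c, H, hc, hca, hH, ?_, ?_, ?_⟩
  · intro u hu
    rw [hH0 u hu, hP0 u hu]
  · intro u hu
    rw [hH1 u hu]
    exact h1 _ (hc.2 hu)
  · intro s hs u hu
    rw [hHb s hs u hu]
    change h (1 - 0, a u) = b u
    rw [sub_zero, h1 _ (ha.2 hu), hab u hu]

end Pool.Agent.Helper28.FX
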